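import Pool.Agent.H741.EL.Stm

/-! DISC1 of helper741's project EL (MP_7791e4_an). -/

set_option autoImplicit false
open MeasureTheory Metric Set Filter Topology

namespace Pool.Agent.H922.ELD

open Pool.Agent.Y508 Pool.Agent.H741.EL

theorem mem_cb {z c : E2} {r : ℝ} (hr : 0 ≤ r) :
    z ∈ closedBall c r ↔ (z 0 - c 0) ^ 2 + (z 1 - c 1) ^ 2 ≤ r ^ 2 := by
  rw [mem_closedBall, dist_eq_norm, ← sq_le_sq₀ (norm_nonneg _) hr, norm_sq_E2]
  rfl

theorem mem_b {z c : E2} {r : ℝ} (hr : 0 ≤ r) :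
    z ∈ ball c r ↔ (z 0 - c 0) ^ 2 + (z 1 - c 1) ^ 2 < r ^ 2 := by
  rw [mem_ball, dist_eq_norm, ← sq_lt_sq₀ (norm_nonneg _) hr, norm_sq_E2]
  rfl

theorem ext2 {z w : E2} (h0 : z 0 = w 0) (h1 : z 1 = w 1) : z = w := by
  ext i
  fin_cases i
  · exact h0
  · exact h1

/-- the key identity -/
theorem key {a b k C₀ S₀ C S r : ℝ} (ha : 0 < a) (hb : 0 < b) (h0 : C₀ ^ 2 + S₀ ^ 2 = 1)
    (h1 : C ^ 2 + S ^ 2 = 1) (hk : k ^ 2 * ((C₀ / a) ^ 2 + (S₀ / b) ^ 2) = r ^ 2) :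
    (a * C - (a * C₀ - k * (C₀ / a))) ^ 2 + (b * S - (b * S₀ - k * (S₀ / b))) ^ 2 - r ^ 2 =
      (a ^ 2 - k) * (C - C₀) ^ 2 + (b ^ 2 - k) * (S - S₀) ^ 2 := by
  have e1 : a * (C₀ / a) = C₀ := by field_simp
  have e2 : b * (S₀ / b) = S₀ := by field_simp
  have : (a * C - (a * C₀ - k * (C₀ / a))) ^ 2 + (b * S - (b * S₀ - k * (S₀ / b))) ^ 2 =
      a ^ 2 * (C - C₀) ^ 2 + b ^ 2 * (S - S₀) ^ 2 + 2 * k * ((a * (C₀ / a)) * (C - C₀) +
        (b * (S₀ / b)) * (S - S₀)) + k ^ 2 * ((C₀ / a) ^ 2 + (S₀ / b) ^ 2) := by ring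
  rw [this, hk, e1, e2]
  linear_combination k * h1 - k * h0

theorem t_DISC1 (h1 : S_ELL) : S_DISC1 := by
  intro a b p c hb hab hp hpc hsub hcon
  have ha : 0 < a := hb.trans_le hab
  obtain ⟨-, hint, -⟩ := h1 a b hb hab
  have hp' : (p 0 / a) ^ 2 + (p 1 / b) ^ 2 = 1 := hp
  obtain ⟨C₀, hC₀⟩ : ∃ C₀ : ℝ, C₀ = p 0 / a := ⟨_, rfl⟩
  obtain ⟨S₀, hS₀⟩ : ∃ S₀ : ℝ, S₀ = p 1 / b := ⟨_, rfl⟩
  have h0 : C₀ ^ 2 + S₀ ^ 2 = 1 := by rw [hC₀, hS₀]; exact hp'
  have hx : p 0 = a * C₀ := by rw [hC₀]; field_simp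
  have hy : p 1 = b * S₀ := by rw [hS₀]; field_simp
  obtain ⟨r, hr⟩ : ∃ r : ℝ, r = rr a b := ⟨_, rfl⟩
  have hr2 : r ^ 2 = a * b / 2 := by
    rw [hr]
    exact Real.sq_sqrt (by positivity)
  have hr0 : 0 < r := by
    rw [hr]
    exact Real.sqrt_pos.2 (by positivity)
  obtain ⟨N, hN⟩ : ∃ N : ℝ, N = Real.sqrt ((p 0 / a ^ 2) ^ 2 + (p 1 / b ^ 2) ^ 2) := ⟨_, rfl⟩
  have em0 : p 0 / a ^ 2 = C₀ / a := by rw [hx]; field_simp
  have em1 : p 1 / b ^ 2 = S₀ / b := by rw [hy]; field_simp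
  have hpos : 0 < (C₀ / a) ^ 2 + (S₀ / b) ^ 2 := by
    by_contra hcon
    push Not at hcon
    have e1 : (C₀ / a) ^ 2 = 0 := le_antisymm (by linarith [sq_nonneg (S₀ / b)]) (sq_nonneg _)
    have e2 : (S₀ / b) ^ 2 = 0 := le_antisymm (by linarith [sq_nonneg (C₀ / a)]) (sq_nonneg _)
    have e3 : C₀ = 0 := by
      have := pow_eq_zero_iff (two_ne_zero) |>.1 e1
      rcases div_eq_zero_iff.1 this with h | h
      · exact h
      · exact absurd h ha.ne'
    have e4 : S₀ = 0 := by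
      have := pow_eq_zero_iff (two_ne_zero) |>.1 e2
      rcases div_eq_zero_iff.1 this with h | h
      · exact h
      · exact absurd h hb.ne'
    rw [e3, e4] at h0
    norm_num at h0
  have hN2 : N ^ 2 = (C₀ / a) ^ 2 + (S₀ / b) ^ 2 := by
    rw [hN, em0, em1]
    exact Real.sq_sqrt hpos.le
  have hN0 : 0 < N := by
    rw [hN, em0, em1]
    exact Real.sqrt_pos.2 hpos
  obtain ⟨k, hk⟩ : ∃ k : ℝ, k = r / N := ⟨_, rfl⟩
  have hk0 : 0 < k := by rw [hk]; positivity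
  have hkN : k * N = r := by rw [hk]; field_simp
  have hk2 : k ^ 2 * ((C₀ / a) ^ 2 + (S₀ / b) ^ 2) = r ^ 2 := by
    rw [← hN2, ← hkN]; ring
  -- the centre
  have hcen : c 0 = a * C₀ - k * (C₀ / a) ∧ c 1 = b * S₀ - k * (S₀ / b) := by
    have hq : pt (c 0 + k * (C₀ / a)) (c 1 + k * (S₀ / b)) ∈ closedBall c (rr a b) := by
      rw [← hr, mem_cb hr0.le]
      simp only [pt_zero, pt_one]
      have : (c 0 + k * (C₀ / a) - c 0) ^ 2 + (c 1 + k * (S₀ / b) - c 1) ^ 2 =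
          k ^ 2 * ((C₀ / a) ^ 2 + (S₀ / b) ^ 2) := by ring
      rw [this, hk2]
    have hq2 : ((c 0 + k * (C₀ / a)) / a) ^ 2 + ((c 1 + k * (S₀ / b)) / b) ^ 2 ≤ 1 := hsub hq
    have hq3 : (c 0 + k * (C₀ / a)) / a * C₀ + (c 1 + k * (S₀ / b)) / b * S₀ ≤ 1 := by
      have key1 : ∀ X Y : ℝ, X ^ 2 + Y ^ 2 ≤ 1 → X * C₀ + Y * S₀ ≤ 1 := by
        intro X Y hXY
        linarith [sq_nonneg (X - C₀), sq_nonneg (Y - S₀)]
      exact key1 _ _ hq2
    have hq4 : (c 0 + k * (C₀ / a)) / a * C₀ + (c 1 + k * (S₀ / b)) / b * S₀ =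
        c 0 * (C₀ / a) + c 1 * (S₀ / b) + k * ((C₀ / a) ^ 2 + (S₀ / b) ^ 2) := by
      field_simp
      ring
    rw [hq4] at hq3
    have hq5 : (a * C₀) * (C₀ / a) + (b * S₀) * (S₀ / b) = 1 := by
      have e1 : (a * C₀) * (C₀ / a) = C₀ ^ 2 := by field_simp
      have e2 : (b * S₀) * (S₀ / b) = S₀ ^ 2 := by field_simp
      rw [e1, e2, h0]
    have hpc' : (a * C₀ - c 0) ^ 2 + (b * S₀ - c 1) ^ 2 ≤ r ^ 2 := by
      rw [← hr, mem_cb hr0.le, hx, hy] at hpc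
      exact hpc
    have hsum : (a * C₀ - c 0 - k * (C₀ / a)) ^ 2 + (b * S₀ - c 1 - k * (S₀ / b)) ^ 2 ≤ 0 := by
      have e : (a * C₀ - c 0 - k * (C₀ / a)) ^ 2 + (b * S₀ - c 1 - k * (S₀ / b)) ^ 2 =
          ((a * C₀ - c 0) ^ 2 + (b * S₀ - c 1) ^ 2) - 2 * k * (((a * C₀) * (C₀ / a) +
            (b * S₀) * (S₀ / b)) - (c 0 * (C₀ / a) + c 1 * (S₀ / b))) +
            k ^ 2 * ((C₀ / a) ^ 2 + (S₀ / b) ^ 2) := by ring
      rw [e, hq5, hk2]
      have h3 : k * ((C₀ / a) ^ 2 + (S₀ / b) ^ 2) ≤ 1 - (c 0 * (C₀ / a) + c 1 * (S₀ / b)) := by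
        linarith
      have h4 := mul_le_mul_of_nonneg_left h3 hk0.le
      have h5 : k * (k * ((C₀ / a) ^ 2 + (S₀ / b) ^ 2)) = r ^ 2 := by rw [← hk2]; ring
      rw [h5] at h4
      linarith
    have e1 : a * C₀ - c 0 - k * (C₀ / a) = 0 := by
      have : (a * C₀ - c 0 - k * (C₀ / a)) ^ 2 = 0 :=
        le_antisymm (by linarith [hsum, sq_nonneg (b * S₀ - c 1 - k * (S₀ / b))]) (sq_nonneg _)
      exact pow_eq_zero_iff (two_ne_zero) |>.1 this
    have e2 : b * S₀ - c 1 - k * (S₀ / b) = 0 := by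
      have : (b * S₀ - c 1 - k * (S₀ / b)) ^ 2 = 0 :=
        le_antisymm (by linarith [hsum, sq_nonneg (a * C₀ - c 0 - k * (C₀ / a))]) (sq_nonneg _)
      exact pow_eq_zero_iff (two_ne_zero) |>.1 this
    exact ⟨by linarith, by linarith⟩
  obtain ⟨hc0, hc1⟩ := hcen
  refine ⟨?_, ?_⟩
  swap
  · apply ext2
    · rw [hc0]
      unfold cen
      simp only [PiLp.sub_apply, PiLp.smul_apply, smul_eq_mul, pt_zero]
      rw [← hN, ← hr, ← hk, em0, hx]
    · rw [hc1]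
      unfold cen
      simp only [PiLp.sub_apply, PiLp.smul_apply, smul_eq_mul, pt_one]
      rw [← hN, ← hr, ← hk, em1, hy]
  -- the inequality at the points of the ellipse
  have hell : ∀ C S : ℝ, C ^ 2 + S ^ 2 = 1 →
      0 ≤ (a ^ 2 - k) * (C - C₀) ^ 2 + (b ^ 2 - k) * (S - S₀) ^ 2 := by
    intro C S hCS
    rw [← key ha hb h0 hCS hk2]
    by_contra hneg
    push Not at hneg
    have hin : pt (a * C) (b * S) ∈ ball c (rr a b) := by
      rw [← hr, mem_b hr0.le]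
      simp only [pt_zero, pt_one]
      rw [hc0, hc1]
      linarith
    have hin2 : pt (a * C) (b * S) ∈ inE a b := by
      rw [← hint]
      exact interior_maximal (ball_subset_closedBall.trans hsub) isOpen_ball hin
    have hin3 : (a * C / a) ^ 2 + (b * S / b) ^ 2 < 1 := hin2
    rw [mul_div_cancel_left₀ _ ha.ne', mul_div_cancel_left₀ _ hb.ne'] at hin3
    linarith
  have hkb : k ≤ b ^ 2 := by
    by_contra hcon
    push Not at hcon
    by_cases hS : S₀ = 0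
    · have hC1 : C₀ ^ 2 = 1 := by rw [hS] at h0; linarith
      obtain ⟨u, hu⟩ : ∃ u : ℝ, u = Real.sqrt ((k - b ^ 2) / (2 * a ^ 2)) := ⟨_, rfl⟩
      have hu0 : 0 < (k - b ^ 2) / (2 * a ^ 2) := div_pos (by linarith) (by positivity)
      have hu2 : u ^ 2 = (k - b ^ 2) / (2 * a ^ 2) := by
        rw [hu]
        exact Real.sq_sqrt hu0.le
      have hup : 0 < 1 + u ^ 2 := by positivity
      have hcirc : (C₀ * ((1 - u ^ 2) / (1 + u ^ 2))) ^ 2 + (2 * u / (1 + u ^ 2)) ^ 2 = 1 := by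
        rw [mul_pow, hC1]
        field_simp
        ring
      have h2 := hell _ _ hcirc
      rw [hS] at h2
      have e1 : (C₀ * ((1 - u ^ 2) / (1 + u ^ 2)) - C₀) ^ 2 =
          C₀ ^ 2 * ((2 * u) ^ 2 / (1 + u ^ 2) ^ 2) * u ^ 2 := by
        field_simp
        ring
      have e2 : (2 * u / (1 + u ^ 2) - 0) ^ 2 = (2 * u) ^ 2 / (1 + u ^ 2) ^ 2 := by
        rw [sub_zero, div_pow]
      rw [e1, e2, hC1] at h2
      have h3 : 0 < (2 * u) ^ 2 / (1 + u ^ 2) ^ 2 := by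
        have : 0 < u ^ 2 := by rw [hu2]; exact hu0
        have h4 : (2 * u) ^ 2 = 4 * u ^ 2 := by ring
        rw [h4]
        positivity
      have h4 : 0 ≤ ((a ^ 2 - k) * u ^ 2 + (b ^ 2 - k)) := by
        by_contra h5
        push Not at h5
        have h6 := mul_neg_of_neg_of_pos h5 h3
        have h7 : ((a ^ 2 - k) * u ^ 2 + (b ^ 2 - k)) * ((2 * u) ^ 2 / (1 + u ^ 2) ^ 2) =
            (a ^ 2 - k) * (1 * ((2 * u) ^ 2 / (1 + u ^ 2) ^ 2) * u ^ 2) +
              (b ^ 2 - k) * ((2 * u) ^ 2 / (1 + u ^ 2) ^ 2) := by ring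
        rw [h7] at h6
        linarith
      have h5 : a ^ 2 * u ^ 2 = (k - b ^ 2) / 2 := by
        rw [hu2]
        field_simp
      have h6 : 0 < k * u ^ 2 := by
        rw [hu2]
        positivity
      linarith
    · have h2 := hell C₀ (-S₀) (by rw [neg_sq]; exact h0)
      have h3 : 0 < S₀ ^ 2 := by positivity
      have h4 : (a ^ 2 - k) * (C₀ - C₀) ^ 2 + (b ^ 2 - k) * (-S₀ - S₀) ^ 2 =
          4 * ((b ^ 2 - k) * S₀ ^ 2) := by ring
      rw [h4] at h2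
      have h5 := mul_pos (sub_pos.2 hcon) h3
      linarith
  -- the algebraic meaning
  have hN3 : a ^ 4 * b ^ 2 * N ^ 2 = a ^ 4 - (a ^ 2 - b ^ 2) * (p 0) ^ 2 := by
    have hs2 : S₀ ^ 2 = 1 - C₀ ^ 2 := by linarith
    rw [hN2, hx, div_pow, div_pow, hs2]
    field_simp
    ring
  rcases lt_or_eq_of_le hkb with hlt | heq
  · left
    have h2 : r < b ^ 2 * N := by
      rw [hk, div_lt_iff₀ hN0] at hlt
      exact hlt
    have h3 : r ^ 2 < (b ^ 2 * N) ^ 2 := by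
      exact pow_lt_pow_left₀ h2 hr0.le two_ne_zero
    rw [hr2] at h3
    have h4 : a * b / 2 * (2 * a ^ 4) < (b ^ 2 * N) ^ 2 * (2 * a ^ 4) :=
      mul_lt_mul_of_pos_right h3 (by positivity)
    have h5 : (b ^ 2 * N) ^ 2 * (2 * a ^ 4) = b * (2 * b * (a ^ 4 * b ^ 2 * N ^ 2)) := by ring
    rw [h5, hN3] at h4
    have h6 : b * a ^ 5 < b * (2 * b * (a ^ 4 - (a ^ 2 - b ^ 2) * p 0 ^ 2)) := by
      calc b * a ^ 5 = a * b / 2 * (2 * a ^ 4) := by ring
        _ < _ := h4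
    have h7 := lt_of_mul_lt_mul_left h6 hb.le
    linarith
  · have h2 : r = b ^ 2 * N := by rw [← heq]; exact hkN.symm
    have h3 : a * b / 2 = (b ^ 2 * N) ^ 2 := by rw [← h2, hr2]
    have h4 : b * a ^ 5 = b * (2 * b * (a ^ 4 - (a ^ 2 - b ^ 2) * p 0 ^ 2)) := by
      rw [← hN3]
      have : a * b / 2 * (2 * a ^ 4) = (b ^ 2 * N) ^ 2 * (2 * a ^ 4) := by rw [h3]
      linarith
    have h5 : a ^ 5 = 2 * b * (a ^ 4 - (a ^ 2 - b ^ 2) * p 0 ^ 2) := mul_left_cancel₀ hb.ne' h4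
    have hne : b < a := by
      rcases lt_or_eq_of_le hab with h | h
      · exact h
      · exfalso
        rw [h] at h5
        have : a ^ 5 = 2 * a ^ 5 := by linarith
        have h6 : 0 < a ^ 5 := by positivity
        linarith
    right
    by_cases hS : S₀ = 0
    · have hC1 : C₀ ^ 2 = 1 := by rw [hS] at h0; linarith
      refine ⟨?_, by rw [hy, hS, mul_zero]⟩
      have h6 : p 0 ^ 2 = a ^ 2 := by rw [hx, mul_pow, hC1, mul_one]
      rw [h6] at h5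
      have h7 : a ^ 2 * a ^ 3 = a ^ 2 * (2 * b ^ 3) := by linarith
      exact mul_left_cancel₀ (by positivity) h7
    · exfalso
      have hS2 : 0 < S₀ ^ 2 := by positivity
      -- the chord
      have hchord : ∀ z : E2, z 0 = p 0 → z ∈ inE a b → z ∈ closedBall c (rr a b) := by
        intro z hz hzin
        have hz2 : (z 0 / a) ^ 2 + (z 1 / b) ^ 2 < 1 := hzin
        rw [hz, ← hC₀] at hz2
        have hz3 : (z 1 / b) ^ 2 < S₀ ^ 2 := by linarith
        have hz4 : z 1 ^ 2 < (b * S₀) ^ 2 := by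
          rw [div_pow, div_lt_iff₀ (by positivity)] at hz3
          rw [mul_pow]
          linarith
        rw [← hr, mem_cb hr0.le, hz, hx, hc0, hc1, heq]
        have e1 : b * S₀ - b ^ 2 * (S₀ / b) = 0 := by
          field_simp
          ring
        rw [e1, sub_zero]
        have hself := key ha hb h0 h0 hk2
        rw [heq] at hself
        rw [e1, sub_zero] at hself
        have : (a ^ 2 - b ^ 2) * (C₀ - C₀) ^ 2 + (b ^ 2 - b ^ 2) * (S₀ - S₀) ^ 2 = 0 := by ring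
        rw [this] at hself
        linarith
      have hC1 : C₀ ^ 2 < 1 := by linarith
      have hC1' : -1 < C₀ ∧ C₀ < 1 := abs_lt.1 ((sq_lt_one_iff_abs_lt_one C₀).1 hC1)
      -- points on both sides
      have hside : ∀ σ : ℝ, (σ = 1 ∨ σ = -1) → ∃ z : E2, z ∈ inE a b \ closedBall c (rr a b) ∧
          0 < σ * (z 0 - p 0) := by
        intro σ hσ
        have hσ2 : σ ^ 2 = 1 := by rcases hσ with h | h <;> rw [h] <;> norm_num
        have hσC : 0 < 1 - σ * C₀ := by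
          rcases hσ with h | h <;> rw [h] <;> linarith [hC1'.1, hC1'.2]
        have hend := key (C := σ) (S := 0) ha hb h0 (by rw [hσ2]; norm_num) hk2
        have hpos2 : 0 < (a ^ 2 - k) * (σ - C₀) ^ 2 + (b ^ 2 - k) * (0 - S₀) ^ 2 := by
          rw [heq]
          have e1 : 0 < a ^ 2 - b ^ 2 := sub_pos.2 (pow_lt_pow_left₀ hne hb.le two_ne_zero)
          have e2 : 0 < (σ - C₀) ^ 2 := by
            have : σ - C₀ ≠ 0 := by
              intro h
              have : σ = C₀ := by linarith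
              rw [this] at hσ2
              linarith
            positivity
          have := mul_pos e1 e2
          linarith
        rw [← hend] at hpos2
        have hcont1 : Continuous fun t : ℝ => (a * (σ * t) - (a * C₀ - k * (C₀ / a))) ^ 2 +
            (b * 0 - (b * S₀ - k * (S₀ / b))) ^ 2 - r ^ 2 := by fun_prop
        have hcont2 : Continuous fun t : ℝ => t - σ * C₀ := by fun_prop
        have ev1 : ∀ᶠ t : ℝ in 𝓝 1, 0 < (a * (σ * t) - (a * C₀ - k * (C₀ / a))) ^ 2 +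
            (b * 0 - (b * S₀ - k * (S₀ / b))) ^ 2 - r ^ 2 := by
          have := hcont1.tendsto 1
          refine this.eventually_const_lt ?_
          simpa using hpos2
        have ev2 : ∀ᶠ t : ℝ in 𝓝 1, 0 < t - σ * C₀ := (hcont2.tendsto 1).eventually_const_lt hσC
        have ev3 : ∀ᶠ t : ℝ in 𝓝 1, (0 : ℝ) < t := by
          have := (continuous_id (X := ℝ)).tendsto 1
          exact this.eventually_const_lt (by norm_num)
        have ev4 : ∀ᶠ t : ℝ in 𝓝[<] 1, t < 1 := eventually_mem_nhdsWithin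
        obtain ⟨t, ⟨⟨⟨ht1, ht2⟩, ht3⟩, ht4⟩⟩ :=
          (((ev1.and ev2).and ev3).filter_mono nhdsWithin_le_nhds |>.and ev4).exists
        refine ⟨pt (a * (σ * t)) (b * 0), ⟨?_, ?_⟩, ?_⟩
        · show (a * (σ * t) / a) ^ 2 + (b * 0 / b) ^ 2 < 1
          rw [mul_div_cancel_left₀ _ ha.ne', mul_div_cancel_left₀ _ hb.ne', mul_pow, hσ2]
          have : t ^ 2 < 1 := pow_lt_one₀ ht3.le ht4 two_ne_zero
          linarith
        · rw [← hr, mem_cb hr0.le, hc0, hc1]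
          simp only [pt_zero, pt_one]
          push Not
          linarith
        · simp only [pt_zero]
          rw [hx]
          have : σ * (a * (σ * t) - a * C₀) = a * (σ ^ 2 * t - σ * C₀) := by ring
          rw [this, hσ2, one_mul]
          exact mul_pos ha ht2
      obtain ⟨z1, hz1, hz1'⟩ := hside (-1) (Or.inr rfl)
      obtain ⟨z2, hz2, hz2'⟩ := hside 1 (Or.inl rfl)
      have hcontf : Continuous fun z : E2 => z 0 := by fun_prop
      obtain ⟨z, hz, hz3⟩ := hcon.intermediate_value hz1 hz2 hcontf.continuousOn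
        (⟨by show z1 0 ≤ p 0; linarith, by show p 0 ≤ z2 0; linarith⟩ : p 0 ∈ Icc (z1 0) (z2 0))
      exact hz.2 (hchord z hz3 hz.1)

end Pool.Agent.H922.ELD
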